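import Mathlib
import Pool.Agent.H523R3.TransMain

set_option autoImplicit false

/-!
# A chain of tetrahedra in dimension three
-/

namespace Pool.Agent.Q141.TR

open Pool.Agent.H523R3.Trans Pool.Agent.H523R3.Frames

/-- The three height functions, block `b`, type `t` (`0,1,2,3` for `p₀,p₁,p₂,q`). -/
def FF (M : ℤ) (k : Fin 3) (b : ℤ) (t : ℕ) : ℤ :=
  if k = 0 then (if t = 0 then M - b else if t = 1 then 3 * b + 1 else if t = 2 then 3 * b
    else 3 * b + 2)
  else if k = 1 then (if t = 0 then 3 * b else if t = 1 then M - b else if t = 2 then 3 * b + 1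
    else 3 * b + 2)
  else (if t = 0 then 2 * b + 1 else if t = 1 then 2 * b else if t = 2 then M - 2 * b
    else M - 2 * b - 1)

/-- The height functions on `Fin (4 m)`. -/
def FT (m : ℕ) (k : Fin 3) (v : Fin (4 * m)) : ℤ :=
  FF (10 * m + 10) k ((v.val / 4 : ℕ) : ℤ) (v.val % 4)

/-- The vertex of type `t` in block `b`. -/
def mkv (m b t : ℕ) (h : b < m ∧ t < 4) : Fin (4 * m) := ⟨4 * b + t, by omega⟩

theorem FT_mkv (m b t : ℕ) (h : b < m ∧ t < 4) (k : Fin 3) :
    FT m k (mkv m b t h) = FF (10 * m + 10) k (b : ℤ) t := by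
  unfold FT mkv
  have h1 : (4 * b + t) / 4 = b := by omega
  have h2 : (4 * b + t) % 4 = t := by omega
  simp only [h1, h2]

/-- A triple of vertices is a frame. -/
def IsFrame (m : ℕ) (a : Fin 3 → Fin (4 * m)) : Prop :=
  (∀ k l, l ≠ k → FT m k (a l) < FT m k (a k)) ∧
    ∀ v, (∀ k, v ≠ a k) → ∃ k, FT m k (a k) < FT m k v

theorem frame_of (m b0 t0 b1 t1 b2 t2 : ℕ) (h0 : b0 < m ∧ t0 < 4) (h1 : b1 < m ∧ t1 < 4)
    (h2 : b2 < m ∧ t2 < 4)
    (hA : FF (10 * m + 10) 0 b1 t1 < FF (10 * m + 10) 0 b0 t0 ∧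
      FF (10 * m + 10) 0 b2 t2 < FF (10 * m + 10) 0 b0 t0 ∧
      FF (10 * m + 10) 1 b0 t0 < FF (10 * m + 10) 1 b1 t1 ∧
      FF (10 * m + 10) 1 b2 t2 < FF (10 * m + 10) 1 b1 t1 ∧
      FF (10 * m + 10) 2 b0 t0 < FF (10 * m + 10) 2 b2 t2 ∧
      FF (10 * m + 10) 2 b1 t1 < FF (10 * m + 10) 2 b2 t2)
    (hB : ∀ b t : ℕ, b < m → t < 4 → ¬ (b = b0 ∧ t = t0) → ¬ (b = b1 ∧ t = t1) →
      ¬ (b = b2 ∧ t = t2) → FF (10 * m + 10) 0 b t ≤ FF (10 * m + 10) 0 b0 t0 →
      FF (10 * m + 10) 1 b t ≤ FF (10 * m + 10) 1 b1 t1 →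
      FF (10 * m + 10) 2 b t ≤ FF (10 * m + 10) 2 b2 t2 → False) :
    IsFrame m ![mkv m b0 t0 h0, mkv m b1 t1 h1, mkv m b2 t2 h2] := by
  obtain ⟨a1, a2, a3, a4, a5, a6⟩ := hA
  constructor
  · intro k l hkl
    fin_cases k <;> fin_cases l <;> first
      | exact absurd rfl hkl
      | (simp only [Fin.zero_eta, Fin.mk_one, Fin.reduceFinMk, Matrix.cons_val_zero,
          Matrix.cons_val_one, Matrix.cons_val, FT_mkv]; assumption)
  · intro v hv
    by_contra hc
    push Not at hc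
    have hvlt := v.isLt
    have e : v = mkv m (v.val / 4) (v.val % 4) (by omega) := by
      apply Fin.ext
      show v.val = 4 * (v.val / 4) + v.val % 4
      omega
    have c0 := hc 0
    have c1 := hc 1
    have c2 := hc 2
    rw [e] at c0 c1 c2
    simp only [Matrix.cons_val_zero, Matrix.cons_val_one, Matrix.cons_val, FT_mkv] at c0 c1 c2
    refine hB (v.val / 4) (v.val % 4) (by omega) (by omega) ?_ ?_ ?_ c0 c1 c2
    · rintro ⟨e1, e2⟩
      apply hv 0
      apply Fin.ext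
      show v.val = 4 * b0 + t0
      omega
    · rintro ⟨e1, e2⟩
      apply hv 1
      apply Fin.ext
      show v.val = 4 * b1 + t1
      omega
    · rintro ⟨e1, e2⟩
      apply hv 2
      apply Fin.ext
      show v.val = 4 * b2 + t2
      omega

/-- `{q, p₁, p₂}` -/
theorem frame_K1 (m b : ℕ) (hb : b < m) :
    IsFrame m ![mkv m b 3 ⟨hb, by omega⟩, mkv m b 1 ⟨hb, by omega⟩, mkv m b 2 ⟨hb, by omega⟩] := by
  apply frame_of
  · simp [FF]; omega
  · intro c t hc ht n0 n1 n2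
    interval_cases t <;> simp [FF] <;> omega

/-- `{p₀, q, p₂}` -/
theorem frame_K2 (m b : ℕ) (hb : b < m) :
    IsFrame m ![mkv m b 0 ⟨hb, by omega⟩, mkv m b 3 ⟨hb, by omega⟩, mkv m b 2 ⟨hb, by omega⟩] := by
  apply frame_of
  · simp [FF]; omega
  · intro c t hc ht n0 n1 n2
    interval_cases t <;> simp [FF] <;> omega

/-- `{p₂', p₁, q}` -/
theorem frame_O0 (m b : ℕ) (hb : b + 1 < m) :
    IsFrame m ![mkv m (b + 1) 2 ⟨hb, by omega⟩, mkv m b 1 ⟨by omega, by omega⟩,
      mkv m b 3 ⟨by omega, by omega⟩] := by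
  apply frame_of
  · simp [FF]; omega
  · intro c t hc ht n0 n1 n2
    interval_cases t <;> simp [FF] <;> omega

/-- `{p₀, p₀', q}` -/
theorem frame_O1 (m b : ℕ) (hb : b + 1 < m) :
    IsFrame m ![mkv m b 0 ⟨by omega, by omega⟩, mkv m (b + 1) 0 ⟨hb, by omega⟩,
      mkv m b 3 ⟨by omega, by omega⟩] := by
  apply frame_of
  · simp [FF]; omega
  · intro c t hc ht n0 n1 n2
    interval_cases t <;> simp [FF] <;> omega

/-- `{p₀, p₁, p₁'}` -/
theorem frame_O2 (m b : ℕ) (hb : b + 1 < m) :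
    IsFrame m ![mkv m b 0 ⟨by omega, by omega⟩, mkv m b 1 ⟨by omega, by omega⟩,
      mkv m (b + 1) 1 ⟨hb, by omega⟩] := by
  apply frame_of
  · simp [FF]; omega
  · intro c t hc ht n0 n1 n2
    interval_cases t <;> simp [FF] <;> omega

/-- `{p₀', p₂', q}` -/
theorem frame_I0 (m b : ℕ) (hb : b + 1 < m) :
    IsFrame m ![mkv m (b + 1) 0 ⟨hb, by omega⟩, mkv m (b + 1) 2 ⟨hb, by omega⟩,
      mkv m b 3 ⟨by omega, by omega⟩] := by
  apply frame_of
  · simp [FF]; omega
  · intro c t hc ht n0 n1 n2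
    interval_cases t <;> simp [FF] <;> omega

/-- `{p₀, p₁', p₀'}` -/
theorem frame_I1 (m b : ℕ) (hb : b + 1 < m) :
    IsFrame m ![mkv m b 0 ⟨by omega, by omega⟩, mkv m (b + 1) 1 ⟨hb, by omega⟩,
      mkv m (b + 1) 0 ⟨hb, by omega⟩] := by
  apply frame_of
  · simp [FF]; omega
  · intro c t hc ht n0 n1 n2
    interval_cases t <;> simp [FF] <;> omega

/-- `{p₁', p₁, p₂'}` -/
theorem frame_I2 (m b : ℕ) (hb : b + 1 < m) :
    IsFrame m ![mkv m (b + 1) 1 ⟨hb, by omega⟩, mkv m b 1 ⟨by omega, by omega⟩,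
      mkv m (b + 1) 2 ⟨hb, by omega⟩] := by
  apply frame_of
  · simp [FF]; omega
  · intro c t hc ht n0 n1 n2
    interval_cases t <;> simp [FF] <;> omega

theorem FT_anti (m : ℕ) (i j : Fin (4 * m)) (hij : i ≠ j) : ∃ k, FT m k i < FT m k j := by
  by_contra hc
  push Not at hc
  have hi := i.isLt
  have hj := j.isLt
  have h0 := hc 0
  have h1 := hc 1
  have h2 := hc 2
  have hne : i.val ≠ j.val := fun h => hij (Fin.ext h)
  simp only [FT] at h0 h1 h2
  generalize hbi : i.val / 4 = bi at h0 h1 h2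
  generalize hbj : j.val / 4 = bj at h0 h1 h2
  generalize hti : i.val % 4 = ti at h0 h1 h2
  generalize htj : j.val % 4 = tj at h0 h1 h2
  have : ti < 4 := by omega
  have : tj < 4 := by omega
  interval_cases ti <;> interval_cases tj <;> simp [FF] at h0 h1 h2 <;> omega

open Classical in
/-- Indicator of the vertex of type `t` in block `b` being in `W`. -/
noncomputable def ind (m : ℕ) (W : Finset (Fin (4 * m))) (b t : ℕ) : ℤ :=
  if ∃ h : b < m ∧ t < 4, mkv m b t h ∈ W then 1 else 0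

theorem ind_01 (m : ℕ) (W : Finset (Fin (4 * m))) (b t : ℕ) :
    ind m W b t = 0 ∨ ind m W b t = 1 := by
  unfold ind; split_ifs <;> simp

theorem ind_mem (m : ℕ) (W : Finset (Fin (4 * m))) (b t : ℕ) (h : b < m ∧ t < 4)
    (hW : mkv m b t h ∈ W) : ind m W b t = 1 := by
  unfold ind; rw [if_pos ⟨h, hW⟩]

theorem ind_out (m : ℕ) (W : Finset (Fin (4 * m))) (b t : ℕ) (h : m ≤ b) :
    ind m W b t = 0 := by
  unfold ind; rw [if_neg]; rintro ⟨h', -⟩; omega

/-- only type `2` in block `b` -/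
noncomputable def D2 (m : ℕ) (W : Finset (Fin (4 * m))) (b : ℕ) : ℤ :=
  if ind m W b 2 = 1 ∧ ind m W b 0 = 0 ∧ ind m W b 1 = 0 ∧ ind m W b 3 = 0 then 1 else 0

/-- only type `3` in block `b` -/
noncomputable def DQ (m : ℕ) (W : Finset (Fin (4 * m))) (b : ℕ) : ℤ :=
  if ind m W b 3 = 1 ∧ ind m W b 0 = 0 ∧ ind m W b 1 = 0 ∧ ind m W b 2 = 0 then 1 else 0

/-- shifted -/
noncomputable def D2s (m : ℕ) (W : Finset (Fin (4 * m))) : ℕ → ℤ
  | 0 => 0
  | b + 1 => D2 m W b

theorem frame_hit {m : ℕ} {W : Finset (Fin (4 * m))}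
    (hW : ∀ a, IsFrame m a → ∃ k, a k ∈ W) (b0 t0 b1 t1 b2 t2 : ℕ) (h0 : b0 < m ∧ t0 < 4)
    (h1 : b1 < m ∧ t1 < 4) (h2 : b2 < m ∧ t2 < 4)
    (hf : IsFrame m ![mkv m b0 t0 h0, mkv m b1 t1 h1, mkv m b2 t2 h2]) :
    1 ≤ ind m W b0 t0 + ind m W b1 t1 + ind m W b2 t2 := by
  obtain ⟨k, hk⟩ := hW _ hf
  have c0 := ind_01 m W b0 t0
  have c1 := ind_01 m W b1 t1
  have c2 := ind_01 m W b2 t2
  fin_cases k
  · have := ind_mem m W b0 t0 h0 hk
    omega
  · have := ind_mem m W b1 t1 h1 hk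
    omega
  · have := ind_mem m W b2 t2 h2 hk
    omega

theorem block_ineq {m : ℕ} {W : Finset (Fin (4 * m))}
    (hW : ∀ a, IsFrame m a → ∃ k, a k ∈ W) (b : ℕ) (hb : b < m) :
    2 + D2s m W b + DQ m W (b + 1) ≤
      ind m W b 0 + ind m W b 1 + ind m W b 2 + ind m W b 3 + D2 m W b + DQ m W b := by
  have k1 := frame_hit hW _ _ _ _ _ _ _ _ _ (frame_K1 m b hb)
  have k2 := frame_hit hW _ _ _ _ _ _ _ _ _ (frame_K2 m b hb)
  have c0 := ind_01 m W b 0
  have c1 := ind_01 m W b 1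
  have c2 := ind_01 m W b 2
  have c3 := ind_01 m W b 3
  have hs : D2s m W b = 0 ∨ (D2s m W b = 1 ∧ ind m W b 0 = 1 ∧ ind m W b 1 = 1 ∧
      ind m W b 2 = 1) := by
    rcases b with _ | b
    · left; rfl
    · have o0 := frame_hit hW _ _ _ _ _ _ _ _ _ (frame_O0 m b hb)
      have o1 := frame_hit hW _ _ _ _ _ _ _ _ _ (frame_O1 m b hb)
      have o2 := frame_hit hW _ _ _ _ _ _ _ _ _ (frame_O2 m b hb)
      have e : D2s m W (b + 1) = D2 m W b := rfl
      rw [e]
      unfold D2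
      split_ifs with h
      · right; omega
      · left; rfl
  have hq : DQ m W (b + 1) = 0 ∨ (DQ m W (b + 1) = 1 ∧ ind m W b 0 = 1 ∧ ind m W b 1 = 1 ∧
      ind m W b 3 = 1) := by
    by_cases hb1 : b + 1 < m
    · have i0 := frame_hit hW _ _ _ _ _ _ _ _ _ (frame_I0 m b hb1)
      have i1 := frame_hit hW _ _ _ _ _ _ _ _ _ (frame_I1 m b hb1)
      have i2 := frame_hit hW _ _ _ _ _ _ _ _ _ (frame_I2 m b hb1)
      unfold DQ
      split_ifs with h
      · right; omega
      · left; rfl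
    · left
      unfold DQ
      rw [ind_out m W (b + 1) 3 (by omega)]
      simp
  have d2 : D2 m W b = 1 ∨ (D2 m W b = 0 ∧ ¬ (ind m W b 2 = 1 ∧ ind m W b 0 = 0 ∧
      ind m W b 1 = 0 ∧ ind m W b 3 = 0)) := by
    unfold D2; split_ifs with h
    · left; rfl
    · right; exact ⟨rfl, h⟩
  have dq : DQ m W b = 1 ∨ (DQ m W b = 0 ∧ ¬ (ind m W b 3 = 1 ∧ ind m W b 0 = 0 ∧
      ind m W b 1 = 0 ∧ ind m W b 2 = 0)) := by
    unfold DQ; split_ifs with h
    · left; rfl
    · right; exact ⟨rfl, h⟩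
  have d2' : D2 m W b = 0 ∨ D2 m W b = 1 := by unfold D2; split_ifs <;> simp
  have dq' : DQ m W b = 0 ∨ DQ m W b = 1 := by unfold DQ; split_ifs <;> simp
  omega

theorem card_ge {m : ℕ} (W : Finset (Fin (4 * m))) :
    ∑ b ∈ Finset.range m, (ind m W b 0 + ind m W b 1 + ind m W b 2 + ind m W b 3) ≤ W.card := by
  classical
  have h1 : W.card = ∑ b ∈ Finset.range m, (W.filter (fun v => v.val / 4 = b)).card := by
    apply Finset.card_eq_sum_card_fiberwise
    intro v _
    have := v.isLt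
    rw [Finset.mem_coe, Finset.mem_range]
    show v.val / 4 < m
    omega
  rw [h1]
  push_cast
  apply Finset.sum_le_sum
  intro b hb
  rw [Finset.mem_range] at hb
  set T := (Finset.range 4).filter (fun t => ind m W b t = 1) with hT
  have hTc : (T.card : ℤ) = ind m W b 0 + ind m W b 1 + ind m W b 2 + ind m W b 3 := by
    have : (T.card : ℤ) = ∑ t ∈ Finset.range 4, ind m W b t := by
      rw [hT, Finset.card_filter]
      push_cast
      apply Finset.sum_congr rfl
      intro t _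
      rcases ind_01 m W b t with h | h <;> simp [h]
    rw [this]
    simp [Finset.sum_range_succ]
  rw [← hTc]
  have hle : T.card ≤ (W.filter (fun v => v.val / 4 = b)).card := by
    apply Finset.card_le_card_of_injOn (fun t => if h : t < 4 then mkv m b t ⟨hb, h⟩ else
      mkv m b 0 ⟨hb, by omega⟩)
    · intro t ht
      rw [Finset.mem_coe, hT, Finset.mem_filter, Finset.mem_range] at ht
      obtain ⟨ht4, hi⟩ := ht
      rw [Finset.mem_coe, Finset.mem_filter]
      simp only [ht4, dif_pos]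
      unfold ind at hi
      split_ifs at hi with hex
      · obtain ⟨h, hw⟩ := hex
        refine ⟨hw, ?_⟩
        show (4 * b + t) / 4 = b
        omega
      · exact absurd hi (by norm_num)
    · intro t ht t' ht' heq
      rw [Finset.mem_coe, hT, Finset.mem_filter, Finset.mem_range] at ht ht'
      simp only [ht.1, ht'.1, dif_pos] at heq
      have := congrArg Fin.val heq
      have e : 4 * b + t = 4 * b + t' := this
      omega
  exact_mod_cast hle

/-- A set meeting all frames has at least `2 m - 2` elements. -/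
theorem hit_bound {m : ℕ} {W : Finset (Fin (4 * m))}
    (hW : ∀ a, IsFrame m a → ∃ k, a k ∈ W) : 2 * m ≤ W.card + 2 := by
  have h1 := card_ge W
  have h2 : ∑ b ∈ Finset.range m, (2 + (D2s m W b - D2s m W (b + 1)) +
      (DQ m W (b + 1) - DQ m W b)) ≤
      ∑ b ∈ Finset.range m, (ind m W b 0 + ind m W b 1 + ind m W b 2 + ind m W b 3) := by
    apply Finset.sum_le_sum
    intro b hb
    rw [Finset.mem_range] at hb
    have := block_ineq hW b hb
    have e : D2s m W (b + 1) = D2 m W b := rfl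
    rw [e]
    linarith
  rw [Finset.sum_add_distrib, Finset.sum_add_distrib, Finset.sum_range_sub',
    Finset.sum_range_sub, Finset.sum_const, Finset.card_range] at h2
  have e0 : D2s m W 0 = 0 := rfl
  have b1 : D2s m W m ≤ 1 := by
    rcases m with _ | m
    · rw [e0]; norm_num
    · show D2 _ W m ≤ 1
      unfold D2; split_ifs <;> norm_num
  have b2 : 0 ≤ DQ m W m := by unfold DQ; split_ifs <;> norm_num
  have b3 : DQ m W 0 ≤ 1 := by unfold DQ; split_ifs <;> norm_num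
  rw [e0] at h2
  simp only [nsmul_eq_mul] at h2
  have : (2 * m : ℤ) ≤ W.card + 2 := by linarith
  exact_mod_cast this

/-- Simplicial 3-polytopes with `4 m` vertices and transversal number at least `2 m - 2`. -/
theorem exists_polytope3 (m : ℕ) (hm : 1 ≤ m) : ∃ p : Fin (4 * m) → E 3,
    IsSimplicialPolytope 3 p ∧ 2 * m ≤ transversalNumber (boundary p) + 2 := by
  obtain ⟨s, hs, hF, hgp⟩ := exists_paramD (by omega : 0 < 3) (FT m)
  have hp := isSimplicialPolytope_pt (by omega : 0 < 3) (by omega) (FT m) (FT_anti m) hs hF hgp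
  refine ⟨pt (FT m) s, hp, ?_⟩
  have hΔ := isComplex_boundary (by omega : 0 < 3) hp
  have hne : {k | ∃ W, IsTransversal (boundary (pt (FT m) s)) W ∧ W.card = k}.Nonempty := by
    refine ⟨_, Finset.univ, ?_, rfl⟩
    intro t ht
    have hne : t.Nonempty := by
      by_contra hcon
      rw [Finset.not_nonempty_iff_eq_empty] at hcon
      have := ht.2 {⟨0, by omega⟩} (hΔ.vert _) (by rw [hcon]; exact Finset.empty_subset _)
      rw [hcon] at this
      exact Finset.singleton_ne_empty _ this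
    obtain ⟨v, hv⟩ := hne
    exact ⟨v, hv, Finset.mem_univ v⟩
  obtain ⟨W, hW, hWcard⟩ := Nat.sInf_mem hne
  unfold transversalNumber
  rw [← hWcard]
  apply hit_bound
  intro a ha
  obtain ⟨v, hv1, hv2⟩ := hW _ (isFacet_of_frame (by omega : 0 < 3) (FT m) hs hF hp a ha.1 ha.2)
  simp only [Finset.mem_image, Finset.mem_univ, true_and] at hv1
  obtain ⟨k, rfl⟩ := hv1
  exact ⟨k, hv2⟩

end Pool.Agent.Q141.TR
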