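import Mathlib
import Pool.Agent.H523R3.TransMain

set_option autoImplicit false

/-!
# Triangulated circles have transversals of size at most `(n+1)/2`
-/

namespace Pool.Agent.Q141.TR

open Pool.Agent.H523R3.Trans

/-- unit vector -/
noncomputable def ev {n : ℕ} (v : Fin n) : Fin n → ℝ := Pi.single v 1

/-- points on the edge from `u` to `v` -/
noncomputable def seg {n : ℕ} (u v : Fin n) (t : ℝ) : Fin n → ℝ := (1 - t) • ev u + t • ev v

theorem seg_mem {n : ℕ} {Δ : Set (Finset (Fin n))} (hΔ : IsComplex Δ) {u v : Fin n}
    (huv : ({u, v} : Finset (Fin n)) ∈ Δ) {t : ℝ} (ht0 : 0 ≤ t) (ht1 : t ≤ 1) :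
    seg u v t ∈ realization Δ := by
  refine ⟨fun i => ?_, ?_, ?_⟩
  · unfold seg ev
    simp only [Pi.add_apply, Pi.smul_apply, smul_eq_mul]
    have h1 : (0 : ℝ) ≤ Pi.single (M := fun _ => ℝ) u 1 i := by
      by_cases h : i = u
      · subst h; simp
      · rw [Pi.single_eq_of_ne h]
    have h2 : (0 : ℝ) ≤ Pi.single (M := fun _ => ℝ) v 1 i := by
      by_cases h : i = v
      · subst h; simp
      · rw [Pi.single_eq_of_ne h]
    have := mul_nonneg (sub_nonneg.mpr ht1) h1
    have := mul_nonneg ht0 h2
    linarith
  · unfold seg ev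
    simp only [Pi.add_apply, Pi.smul_apply, smul_eq_mul, Finset.sum_add_distrib,
      ← Finset.mul_sum, Finset.sum_pi_single', Finset.mem_univ, if_true]
    ring
  · apply hΔ.down _ huv
    intro i hi
    rw [Finset.mem_filter] at hi
    rw [Finset.mem_insert, Finset.mem_singleton]
    by_contra hc
    push Not at hc
    apply hi.2
    unfold seg ev
    simp [Pi.single_eq_of_ne hc.1, Pi.single_eq_of_ne hc.2]

theorem ev_mem {n : ℕ} {Δ : Set (Finset (Fin n))} (hΔ : IsComplex Δ) (u : Fin n) :
    ev u ∈ realization Δ := by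
  have h : ({u, u} : Finset (Fin n)) ∈ Δ := by
    rw [Finset.pair_eq_singleton]; exact hΔ.vert u
  have := seg_mem hΔ h (t := 0) (le_refl _) zero_le_one
  simpa [seg] using this

theorem seg_ne {n : ℕ} {u v w : Fin n} (hu : w ≠ u) (hv : w ≠ v) (t : ℝ) : seg u v t ≠ ev w := by
  intro h
  have := congrFun h w
  unfold seg ev at this
  simp [Pi.single_eq_of_ne hu, Pi.single_eq_of_ne hv] at this

/-- A real coordinate on the realization minus a vertex. -/
theorem exists_coord {n : ℕ} {Δ : Set (Finset (Fin n))}
    (h : realization Δ ≃ₜ Metric.sphere (0 : E 2) 1) (x0 : realization Δ) :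
    ∃ ψ : realization Δ → ℝ, ContinuousOn ψ {x0}ᶜ ∧ Set.InjOn ψ {x0}ᶜ := by
  have : Fact (Module.finrank ℝ (E 2) = 1 + 1) := ⟨by simp⟩
  set φ := stereographic' 1 (h x0) with hφ
  have hsrc : φ.source = {h x0}ᶜ := stereographic'_source _
  refine ⟨fun x => (φ (h x)).ofLp 0, ?_, ?_⟩
  · have h1 : ContinuousOn (fun x => φ (h x)) {x0}ᶜ := by
      apply φ.continuousOn.comp h.continuous.continuousOn
      intro x hx
      rw [hsrc]
      intro hc
      exact hx (h.injective hc)
    have h2 : Continuous fun y : EuclideanSpace ℝ (Fin 1) => y.ofLp 0 := by fun_prop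
    exact h2.comp_continuousOn h1
  · intro x hx y hy hxy
    have e : φ (h x) = φ (h y) := by
      ext i
      fin_cases i
      exact hxy
    have hx' : h x ∈ φ.source := by
      rw [hsrc]; intro hc; exact hx (h.injective hc)
    have hy' : h y ∈ φ.source := by
      rw [hsrc]; intro hc; exact hy (h.injective hc)
    exact h.injective (φ.injOn hx' hy' e)

theorem card_odd (m : ℕ) : ((Finset.range m).filter (fun k => k % 2 = 1)).card = m / 2 := by
  induction m with
  | zero => simp
  | succ m ih =>
    rw [Finset.range_add_one, Finset.filter_insert]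
    split_ifs with h
    · rw [Finset.card_insert_of_notMem (by simp), ih]; omega
    · rw [ih]; omega

/-- The transversal number of a triangulated circle. -/
theorem circle_bound {n : ℕ} {Δ : Set (Finset (Fin n))} (hS : IsSimplicialSphere 2 Δ)
    (hn : 2 ≤ n) : transversalNumber Δ ≤ (n + 1) / 2 := by
  classical
  obtain ⟨hΔ, ⟨h⟩⟩ := hS
  set v0 : Fin n := ⟨0, by omega⟩ with hv0
  obtain ⟨ψ, hψc, hψi⟩ := exists_coord h ⟨ev v0, ev_mem hΔ v0⟩
  set r : Fin n → ℝ := fun v => ψ ⟨ev v, ev_mem hΔ v⟩ with hr
  have hne : ∀ v, v ≠ v0 → (⟨ev v, ev_mem hΔ v⟩ : realization Δ) ∈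
      ({⟨ev v0, ev_mem hΔ v0⟩}ᶜ : Set (realization Δ)) := by
    intro v hv hc
    rw [Set.mem_singleton_iff, Subtype.mk.injEq] at hc
    have := congrFun hc v0
    unfold ev at this
    rw [Pi.single_eq_same, Pi.single_eq_of_ne (Ne.symm hv)] at this
    exact zero_ne_one this
  have hrinj : ∀ u v, u ≠ v0 → v ≠ v0 → r u = r v → u = v := by
    intro u v hu hv huv
    have := hψi (hne u hu) (hne v hv) huv
    rw [Subtype.mk.injEq] at this
    by_contra hc
    have h2 := congrFun this u
    unfold ev at h2
    rw [Pi.single_eq_same, Pi.single_eq_of_ne hc] at h2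
    exact one_ne_zero h2
  -- no vertex between the ends of an edge
  have hadj : ∀ u v w, u ≠ v0 → v ≠ v0 → w ≠ v0 → ({u, v} : Finset (Fin n)) ∈ Δ →
      r u < r w → r w < r v → False := by
    intro u v w hu hv hw huv h1 h2
    set γ : Set.Icc (0 : ℝ) 1 → realization Δ :=
      fun t => ⟨seg u v t.1, seg_mem hΔ huv t.2.1 t.2.2⟩ with hγ
    have hγc : Continuous γ := by
      apply Continuous.subtype_mk
      unfold seg
      fun_prop
    have hγn : ∀ t, γ t ∈ ({⟨ev v0, ev_mem hΔ v0⟩}ᶜ : Set (realization Δ)) := by
      intro t hc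
      rw [Set.mem_singleton_iff, Subtype.mk.injEq] at hc
      exact seg_ne (Ne.symm hu) (Ne.symm hv) t.1 hc
    have hc : Continuous (ψ ∘ γ) := by
      rw [← continuousOn_univ]
      exact hψc.comp hγc.continuousOn (fun t _ => hγn t)
    have e0 : (ψ ∘ γ) ⟨0, by simp⟩ = r u := by
      simp only [Function.comp, hγ, hr]
      congr 2
      simp [seg]
    have e1 : (ψ ∘ γ) ⟨1, by simp⟩ = r v := by
      simp only [Function.comp, hγ, hr]
      congr 2
      simp [seg]
    have hmem : r w ∈ Set.Icc ((ψ ∘ γ) ⟨0, by simp⟩) ((ψ ∘ γ) ⟨1, by simp⟩) := by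
      rw [e0, e1]; exact ⟨h1.le, h2.le⟩
    obtain ⟨t, ht⟩ := mem_range_of_exists_le_of_exists_ge hc ⟨_, hmem.1⟩ ⟨_, hmem.2⟩
    have h3 := hψi (hγn t) (hne w hw) ht
    rw [Subtype.mk.injEq] at h3
    have hwu : w ≠ u := by rintro rfl; exact lt_irrefl _ h1
    have hwv : w ≠ v := by rintro rfl; exact lt_irrefl _ h2
    exact seg_ne hwu hwv t.1 h3
  -- no isolated vertex
  have hiso : ∀ u, u ≠ v0 → ¬ IsFacet Δ {u} := by
    intro u hu hF
    have hconn : IsConnected (Set.univ : Set (realization Δ)) := by
      have hs : IsConnected (Metric.sphere (0 : E 2) 1) :=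
        isConnected_sphere (by rw [← Module.finrank_eq_rank]; simp) _ zero_le_one
      have hs' : ConnectedSpace (Metric.sphere (0 : E 2) 1) :=
        isConnected_iff_connectedSpace.mp hs
      have := h.symm.surjective.connectedSpace h.symm.continuous
      exact isConnected_univ
    have hU : {x : realization Δ | 0 < x.1 u} = {⟨ev u, ev_mem hΔ u⟩} := by
      ext x
      constructor
      · intro hx
        have hx' : 0 < x.1 u := hx
        have hsup := x.2.2.2
        have hsub : ({u} : Finset (Fin n)) ⊆ Finset.univ.filter (fun i => x.1 i ≠ 0) := by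
          intro i hi
          rw [Finset.mem_singleton] at hi
          subst hi
          simp [hx'.ne']
        have heq := hF.2 _ hsup hsub
        have hz : ∀ i, i ≠ u → x.1 i = 0 := by
          intro i hi
          by_contra hc
          have : i ∈ Finset.univ.filter (fun i => x.1 i ≠ 0) := by simp [hc]
          rw [heq, Finset.mem_singleton] at this
          exact hi this
        have hone : x.1 u = 1 := by
          have := x.2.2.1
          rw [Finset.sum_eq_single u (fun i _ hi => hz i hi) (by simp)] at this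
          exact this
        apply Subtype.ext
        funext i
        by_cases hi : i = u
        · subst hi
          show x.1 i = ev i i
          rw [hone]; simp [ev]
        · show x.1 i = ev u i
          rw [hz i hi]; simp [ev, Pi.single_eq_of_ne hi]
      · rintro rfl
        show 0 < ev u u
        simp [ev]
    have hcont : Continuous (fun x : realization Δ => x.1 u) :=
      (continuous_apply u).comp continuous_subtype_val
    have hopen : IsOpen ({⟨ev u, ev_mem hΔ u⟩} : Set (realization Δ)) := by
      rw [← hU]; exact isOpen_lt continuous_const hcont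
    have hclosed : IsClosed ({⟨ev u, ev_mem hΔ u⟩} : Set (realization Δ)) := isClosed_singleton
    have : ConnectedSpace (realization Δ) := connectedSpace_iff_univ.mpr hconn
    rcases isClopen_iff.mp ⟨hclosed, hopen⟩ with h1 | h1
    · exact Set.singleton_ne_empty _ h1
    · have : (⟨ev v0, ev_mem hΔ v0⟩ : realization Δ) ∈
          ({⟨ev u, ev_mem hΔ u⟩} : Set (realization Δ)) := by rw [h1]; trivial
      exact hne u hu (by
        rw [Set.mem_singleton_iff] at this ⊢
        exact this.symm)
  -- ranks
  set V : Finset (Fin n) := Finset.univ.erase v0 with hV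
  have hVc : V.card = n - 1 := by
    rw [hV, Finset.card_erase_of_mem (Finset.mem_univ _), Finset.card_univ, Fintype.card_fin]
  set rk : Fin n → ℕ := fun v => (V.filter (fun w => r w < r v)).card with hrk
  have hmono : ∀ u v, u ∈ V → r u < r v → rk u < rk v := by
    intro u v hu huv
    apply Finset.card_lt_card
    constructor
    · intro w hw
      rw [Finset.mem_filter] at hw ⊢
      exact ⟨hw.1, hw.2.trans huv⟩
    · intro hsub
      have : u ∈ V.filter (fun w => r w < r u) := hsub (by
        rw [Finset.mem_filter]; exact ⟨hu, huv⟩)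
      rw [Finset.mem_filter] at this
      exact lt_irrefl _ this.2
  have hmemV : ∀ u, u ∈ V ↔ u ≠ v0 := by intro u; rw [hV]; simp
  have hrklt : ∀ u ∈ V, rk u < n - 1 := by
    intro u hu
    rw [← hVc]
    apply Finset.card_lt_card
    constructor
    · exact Finset.filter_subset _ _
    · intro hsub
      have := hsub hu
      rw [Finset.mem_filter] at this
      exact lt_irrefl _ this.2
  have hrkinj : Set.InjOn rk (V : Set (Fin n)) := by
    intro u hu v hv huv
    rw [Finset.mem_coe] at hu hv
    rcases lt_trichotomy (r u) (r v) with h1 | h1 | h1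
    · exact absurd huv (hmono u v hu h1).ne
    · exact hrinj u v ((hmemV u).mp hu) ((hmemV v).mp hv) h1
    · exact absurd huv (hmono v u hv h1).ne'
  set W : Finset (Fin n) := insert v0 (V.filter (fun v => rk v % 2 = 1)) with hW
  have hWcard : W.card ≤ (n + 1) / 2 := by
    have h1 : (V.filter (fun v => rk v % 2 = 1)).card ≤
        ((Finset.range (n - 1)).filter (fun k => k % 2 = 1)).card := by
      apply Finset.card_le_card_of_injOn rk
      · intro v hv
        rw [Finset.mem_coe, Finset.mem_filter] at hv
        rw [Finset.mem_coe, Finset.mem_filter, Finset.mem_range]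
        exact ⟨hrklt v hv.1, hv.2⟩
      · intro u hu v hv huv
        rw [Finset.mem_coe, Finset.mem_filter] at hu hv
        exact hrkinj hu.1 hv.1 huv
    rw [card_odd] at h1
    have h2 : W.card ≤ (V.filter (fun v => rk v % 2 = 1)).card + 1 := Finset.card_insert_le _ _
    omega
  have hWt : IsTransversal Δ W := by
    intro s hs
    by_cases h0 : v0 ∈ s
    · exact ⟨v0, h0, Finset.mem_insert_self _ _⟩
    -- s has at least two elements
    have hne' : s.Nonempty := by
      by_contra hc
      rw [Finset.not_nonempty_iff_eq_empty] at hc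
      subst hc
      have := hs.2 {v0} (hΔ.vert v0) (Finset.empty_subset _)
      exact Finset.singleton_ne_empty _ this
    obtain ⟨u, hu⟩ := hne'
    have hu0 : u ≠ v0 := by rintro rfl; exact h0 hu
    have hex : ∃ v ∈ s, v ≠ u := by
      by_contra hc
      push Not at hc
      have : s = {u} := by
        ext w
        rw [Finset.mem_singleton]
        constructor
        · exact hc w
        · rintro rfl; exact hu
      exact hiso u hu0 (this ▸ hs)
    obtain ⟨v, hv, hvu⟩ := hex
    have hv0' : v ≠ v0 := by rintro rfl; exact h0 hv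
    have huvΔ : ({u, v} : Finset (Fin n)) ∈ Δ := by
      apply hΔ.down s hs.1
      intro w hw
      rw [Finset.mem_insert, Finset.mem_singleton] at hw
      rcases hw with rfl | rfl
      · exact hu
      · exact hv
    have hvuΔ : ({v, u} : Finset (Fin n)) ∈ Δ := by rw [Finset.pair_comm]; exact huvΔ
    -- consecutive ranks
    have hcons : ∀ u v, u ≠ v0 → v ≠ v0 → ({u, v} : Finset (Fin n)) ∈ Δ → r u < r v →
        rk v = rk u + 1 := by
      intro u v hu hv huv hlt
      have : V.filter (fun w => r w < r v) = insert u (V.filter (fun w => r w < r u)) := by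
        ext w
        rw [Finset.mem_insert, Finset.mem_filter, Finset.mem_filter]
        constructor
        · rintro ⟨hw, hwv⟩
          rcases lt_trichotomy (r w) (r u) with h1 | h1 | h1
          · right; exact ⟨hw, h1⟩
          · left; exact hrinj w u ((hmemV w).mp hw) hu h1
          · exact (hadj u v w hu hv ((hmemV w).mp hw) huv h1 hwv).elim
        · rintro (rfl | ⟨hw, hwu⟩)
          · exact ⟨(hmemV w).mpr hu, hlt⟩
          · exact ⟨hw, hwu.trans hlt⟩
      show (V.filter (fun w => r w < r v)).card = _
      rw [this, Finset.card_insert_of_notMem]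
      rw [Finset.mem_filter]
      intro hc
      exact lt_irrefl _ hc.2
    have hinW : ∀ w, w ≠ v0 → rk w % 2 = 1 → w ∈ W := by
      intro w hw h1
      rw [hW, Finset.mem_insert, Finset.mem_filter]
      right
      exact ⟨(hmemV w).mpr hw, h1⟩
    have hor : rk u % 2 = 1 ∨ rk v % 2 = 1 := by
      rcases lt_trichotomy (r u) (r v) with h1 | h1 | h1
      · have := hcons u v hu0 hv0' huvΔ h1
        omega
      · exact absurd (hrinj u v hu0 hv0' h1).symm hvu
      · have := hcons v u hv0' hu0 hvuΔ h1
        omega
    rcases hor with h1 | h1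
    · exact ⟨u, hu, hinW u hu0 h1⟩
    · exact ⟨v, hv, hinW v hv0' h1⟩
  have hm : W.card ∈ {k | ∃ W, IsTransversal Δ W ∧ W.card = k} := ⟨W, hWt, rfl⟩
  exact (Nat.sInf_le hm).trans hWcard

end Pool.Agent.Q141.TR
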